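import Pool.Agent.LTS.AllL

/-!
# MP_4c716f_mp: upper bounds for the Lieb-Thirring constants in every dimension, `1 ≤ γ < 3/2`

`L_{γ,d} ≤ 2 ((γ - 1/2)/(γ + 1/2))^(γ - 1/2) L^cl_{γ,d}` for all `d ≥ 1` and `1 ≤ γ < 3/2`; the
factor is the ratio `L_{γ,1} / L^cl_{γ,1}` of dimension one, `2/√3` for `γ = 1`.

Method (new): the sharp one dimensional inequality with operator valued potentials for all
`1/2 ≤ γ < 3/2`. Trace inequality for a vertex `κ²` (potentials `V` for which the Riccati equation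
`F' = κ² - F² - V` leads from `F = κ` on the left to `F = -κ` on the right), existence of the vertex
by Brouwer's theorem, and lifting in the dimension (Laptev-Weidl).
-/

set_option autoImplicit false

namespace Pool.Agent.Results.MP_4c716f_mp.AllDimensions

open MeasureTheory
open scoped ComplexConjugate ContDiff

/-- Test functions on `ℝ^d`: smooth with compact support. -/
def TestFunction (d : ℕ) (φ : (Fin d → ℝ) → ℂ) : Prop := ContDiff ℝ ∞ φ ∧ HasCompactSupport φ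

/-- `u ∈ H¹(ℝ^d)` with weak gradient `g`: `u, g_i ∈ L²` and `∫ u ∂_i φ = -∫ g_i φ` for all test
functions `φ`. -/
def IsH1 {d : ℕ} (u : (Fin d → ℝ) → ℂ) (g : Fin d → (Fin d → ℝ) → ℂ) : Prop :=
  MemLp u 2 volume ∧ (∀ i, MemLp (g i) 2 volume) ∧
    ∀ (i : Fin d) (φ : (Fin d → ℝ) → ℂ), TestFunction d φ →
      ∫ y, u y * fderiv ℝ φ y (Pi.single i 1) = -∫ y, g i y * φ y

/-- `ψ` is an eigenfunction, with eigenvalue `E`, of the operator `-Δ + V` defined by the quadratic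
form `∫ |∇u|² + V |u|²` on `H¹(ℝ^d)`: `ψ ∈ H¹` and
`∫ conj(∇φ) · ∇ψ + ∫ V conj(φ) ψ = E ∫ conj(φ) ψ` for all `φ ∈ H¹`. -/
def IsEigenfunction {d : ℕ} (V : (Fin d → ℝ) → ℝ) (ψ : (Fin d → ℝ) → ℂ) (E : ℝ) : Prop :=
  ∃ g : Fin d → (Fin d → ℝ) → ℂ, IsH1 ψ g ∧
    ∀ (φ : (Fin d → ℝ) → ℂ) (h : Fin d → (Fin d → ℝ) → ℂ), IsH1 φ h →
      (∑ i, ∫ y, conj (h i y) * g i y) + (∫ y, (V y : ℂ) * (conj (φ y) * ψ y)) =
        E * ∫ y, conj (φ y) * ψ y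

/-- `L` is an admissible constant in the Lieb-Thirring inequality for `(γ, d)`: for all real
`V ∈ L^(γ+d/2)(ℝ^d)` and every finite orthonormal system of eigenfunctions of `-Δ + V` with negative
eigenvalues `E_j`, `∑ |E_j|^γ ≤ L ∫ V_-^(γ+d/2)`. -/
def LiebThirring (γ : ℝ) (d : ℕ) (L : ℝ) : Prop :=
  ∀ V : (Fin d → ℝ) → ℝ, MemLp V (ENNReal.ofReal (γ + d / 2)) volume →
    ∀ (N : ℕ) (ψ : Fin N → (Fin d → ℝ) → ℂ) (E : Fin N → ℝ),
      (∀ j, IsEigenfunction V (ψ j) (E j)) → (∀ j, E j < 0) →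
      (∀ i j, ∫ y, conj (ψ i y) * ψ j y = if i = j then 1 else 0) →
      ∑ j, |E j| ^ γ ≤ L * ∫ y, max (-V y) 0 ^ (γ + d / 2)

/-- The semiclassical constant `L^cl_{γ,d} = Γ(γ+1) / ((4π)^(d/2) Γ(γ+1+d/2))`. -/
noncomputable def classical (γ : ℝ) (d : ℕ) : ℝ :=
  Real.Gamma (γ + 1) / ((4 * Real.pi) ^ ((d : ℝ) / 2) * Real.Gamma (γ + 1 + d / 2))

/-- The factor `R γ = 2 ((γ - 1/2)/(γ + 1/2))^(γ - 1/2)`; `R 1 = 2/√3`. -/
noncomputable def R (γ : ℝ) : ℝ := 2 * ((γ - 1 / 2) / (γ + 1 / 2)) ^ (γ - 1 / 2)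

/-- `L_{γ,d} ≤ R γ * L^cl_{γ,d}` for all `d ≥ 1` and `1 ≤ γ < 3/2`. -/
theorem result (d : ℕ) (hd : 0 < d) (γ : ℝ) (h1 : 1 ≤ γ) (h2 : γ < 3 / 2) :
    LiebThirring γ d (R γ * classical γ d) :=
  LTS.geOne d hd γ h1 h2

end Pool.Agent.Results.MP_4c716f_mp.AllDimensions
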