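import Pool.Agent.LTS.All

/-!
# MP_4c716f_mp: the optimal Lieb-Thirring constants on the line, all `1/2 < γ < 3/2`

`L_{γ,1} = 2 ((γ-1/2)/(γ+1/2))^(γ-1/2) L^cl_{γ,1}` for every `1/2 < γ < 3/2` (the constant of one
bound state; conjecture of Lieb and Thirring, 1976, in one dimension).

Proof of the upper bound. (1) For every continuous `N × N` matrix potential `V ≥ 0` on `[-X, X]`
there is a constant `κ ≥ 0` such that `-d²/dx² + κ² - V ≥ 0` has an `N`-dimensional kernel: the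
Riccati equation `F' = κ² - F² - V` has a solution from `κ` to `-κ` (Brouwer's theorem; `V` may
depend on `κ`). (2) For such `κ`: `tr κ^(2γ) ≤ L ∫ tr V^(γ+1/2)` (trace inequality for the solution
`F`). (3) For a scalar potential with `N` orthonormal eigenfunctions `ψ` take the rank one potential
in the direction `κ^(γ-1) ψ` (`γ < 1`) or `K^(γ-1) ψ` (`γ ≥ 1`) and test the operator with this
vector.
-/

set_option autoImplicit false

namespace Pool.Agent.Results.MP_4c716f_mp.OneDimension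

open MeasureTheory
open scoped ComplexConjugate

/-- `u ∈ H¹(ℝ)` with derivative `u'`: `u, u' ∈ L²(ℝ)` and `u(b) - u(a) = ∫_a^b u'`. -/
def IsH1 (u u' : ℝ → ℂ) : Prop :=
  MemLp u 2 volume ∧ MemLp u' 2 volume ∧ ∀ a b : ℝ, u b - u a = ∫ x in a..b, u' x

/-- `ψ` is an eigenfunction, with eigenvalue `E`, of the operator `-d²/dx² + V` defined by the
quadratic form `∫ |u'|² + V |u|²` on `H¹(ℝ)`: `ψ ∈ H¹` and
`∫ conj(φ') ψ' + ∫ V conj(φ) ψ = E ∫ conj(φ) ψ` for all `φ ∈ H¹`. -/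
def IsEigenfunction (V : ℝ → ℝ) (ψ : ℝ → ℂ) (E : ℝ) : Prop :=
  ∃ ψ' : ℝ → ℂ, IsH1 ψ ψ' ∧ ∀ φ φ' : ℝ → ℂ, IsH1 φ φ' →
    (∫ x, conj (φ' x) * ψ' x) + (∫ x, (V x : ℂ) * (conj (φ x) * ψ x)) =
      E * ∫ x, conj (φ x) * ψ x

/-- `L` is an admissible constant in the Lieb-Thirring inequality with exponent `γ` on the line: for
all real `V ∈ L^(γ+1/2)(ℝ)` and every finite orthonormal system of eigenfunctions of `-d²/dx² + V`
with negative eigenvalues `E_j`, `∑ |E_j|^γ ≤ L ∫ V_-^(γ+1/2)`. -/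
def LiebThirring (γ L : ℝ) : Prop :=
  ∀ V : ℝ → ℝ, MemLp V (ENNReal.ofReal (γ + 1 / 2)) volume →
    ∀ (N : ℕ) (ψ : Fin N → ℝ → ℂ) (E : Fin N → ℝ), (∀ j, IsEigenfunction V (ψ j) (E j)) →
      (∀ j, E j < 0) → (∀ i j, ∫ x, conj (ψ i x) * ψ j x = if i = j then 1 else 0) →
      ∑ j, |E j| ^ γ ≤ L * ∫ x, max (-V x) 0 ^ (γ + 1 / 2)

/-- The semiclassical constant `L^cl_{γ,1} = Γ(γ+1) / ((4π)^(1/2) Γ(γ+3/2))`. -/
noncomputable def classical (γ : ℝ) : ℝ :=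
  Real.Gamma (γ + 1) / ((4 * Real.pi) ^ ((1 : ℝ) / 2) * Real.Gamma (γ + 3 / 2))

/-- `L_{γ,1} = 2 ((γ-1/2)/(γ+1/2))^(γ-1/2) L^cl_{γ,1}` for `1/2 < γ < 3/2`: this is the smallest
admissible constant. -/
theorem result (γ : ℝ) (h1 : 1 / 2 < γ) (h2 : γ < 3 / 2) :
    IsLeast {L : ℝ | LiebThirring γ L}
      (2 * ((γ - 1 / 2) / (γ + 1 / 2)) ^ (γ - 1 / 2) * classical γ) := by
  have e : 2 * ((γ - 1 / 2) / (γ + 1 / 2)) ^ (γ - 1 / 2) * classical γ = LTS.Lone γ :=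
    (LTS.lone_eq γ h1).symm
  rw [e]
  exact ⟨LTS.upperAll LTS.vertex γ h1 h2, fun L hL => LTS.lowAll γ L h1 h2 hL⟩

end Pool.Agent.Results.MP_4c716f_mp.OneDimension
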