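import Pool.Agent.RC.All

/-!
# MP_4c716f_mp: the sharp CLR inequality (`γ = 0`, `d = 3`) for radial potentials

The optimal constant in `N(-Δ + V) ≤ L ∫ V_-^{3/2}` for radial potentials on `ℝ³` is
`4 / (3 √3 π²)`, the constant of one bound state (Sobolev).

Method (new): in logarithmic polar coordinates the number of bound states of a radial potential is
counted by the first moments of the negative eigenvalues of a Schrödinger operator on the line; the
sharp one dimensional Lieb-Thirring inequality with `γ = 1` (new, file `OneDimension.lean`) gives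
the upper bound.
-/

set_option autoImplicit false

namespace Pool.Agent.Results.MP_4c716f_mp.RadialCLR

open MeasureTheory
open scoped ComplexConjugate ContDiff

/-- Test functions on `ℝ³`: smooth with compact support. -/
def TestFunction (φ : (Fin 3 → ℝ) → ℂ) : Prop := ContDiff ℝ ∞ φ ∧ HasCompactSupport φ

/-- `u ∈ H¹(ℝ³)` with weak gradient `g`: `u, g_i ∈ L²` and `∫ u ∂_i φ = -∫ g_i φ` for all test
functions `φ`. -/
def IsH1 (u : (Fin 3 → ℝ) → ℂ) (g : Fin 3 → (Fin 3 → ℝ) → ℂ) : Prop :=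
  MemLp u 2 volume ∧ (∀ i, MemLp (g i) 2 volume) ∧
    ∀ (i : Fin 3) (φ : (Fin 3 → ℝ) → ℂ), TestFunction φ →
      ∫ y, u y * fderiv ℝ φ y (Pi.single i 1) = -∫ y, g i y * φ y

/-- `ψ` is an eigenfunction, with eigenvalue `E`, of the operator `-Δ + V` defined by the quadratic
form `∫ |∇u|² + V |u|²` on `H¹(ℝ³)`: `ψ ∈ H¹` and
`∫ conj(∇φ) · ∇ψ + ∫ V conj(φ) ψ = E ∫ conj(φ) ψ` for all `φ ∈ H¹`. -/
def IsEigenfunction (V : (Fin 3 → ℝ) → ℝ) (ψ : (Fin 3 → ℝ) → ℂ) (E : ℝ) : Prop :=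
  ∃ g : Fin 3 → (Fin 3 → ℝ) → ℂ, IsH1 ψ g ∧
    ∀ (φ : (Fin 3 → ℝ) → ℂ) (h : Fin 3 → (Fin 3 → ℝ) → ℂ), IsH1 φ h →
      (∑ i, ∫ y, conj (h i y) * g i y) + (∫ y, (V y : ℂ) * (conj (φ y) * ψ y)) =
        E * ∫ y, conj (φ y) * ψ y

/-- `V` is radial: `V x` depends only on the Euclidean norm of `x`. -/
def Radial (V : (Fin 3 → ℝ) → ℝ) : Prop :=
  ∀ x y : Fin 3 → ℝ, ∑ i, x i ^ 2 = ∑ i, y i ^ 2 → V x = V y

/-- `L` is an admissible constant in the Cwikel-Lieb-Rozenblum inequality for radial potentials on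
`ℝ³`: for all real radial `V ∈ L^{3/2}(ℝ³)`, every finite orthonormal system of eigenfunctions of
`-Δ + V` with negative eigenvalues has at most `L ∫ V_-^{3/2}` elements. -/
def CLR (L : ℝ) : Prop :=
  ∀ V : (Fin 3 → ℝ) → ℝ, MemLp V (ENNReal.ofReal (3 / 2)) volume → Radial V →
    ∀ (N : ℕ) (ψ : Fin N → (Fin 3 → ℝ) → ℂ) (E : Fin N → ℝ),
      (∀ j, IsEigenfunction V (ψ j) (E j)) → (∀ j, E j < 0) →
      (∀ i j, ∫ y, conj (ψ i y) * ψ j y = if i = j then 1 else 0) →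
      (N : ℝ) ≤ L * ∫ y, max (-V y) 0 ^ ((3 : ℝ) / 2)

/-- The optimal constant of the Cwikel-Lieb-Rozenblum inequality for radial potentials on `ℝ³` is
`4 / (3 √3 π²)`. -/
theorem result : IsLeast {L : ℝ | CLR L} (4 / (3 * √3 * Real.pi ^ 2)) :=
  ⟨RC.upperAll, fun L h => RC.lowerAll L h⟩

end Pool.Agent.Results.MP_4c716f_mp.RadialCLR
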